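import Pool.Agent.H.MP_55235b.A

set_option autoImplicit false
open Set Cardinal

namespace Pool.Agent.Results.MP_55235b_an.Main

abbrev H : Type := lp (fun _ : (Ordinal.omega 1 : Ordinal.{0}).ToType => ℝ) 2

theorem result : ∃ N : H → ℝ,
    (∀ x y, N (x + y) ≤ N x + N y) ∧ (∀ (t : ℝ) x, N (t • x) = |t| * N x) ∧
    (∃ c C : ℝ, 0 < c ∧ c ≤ C ∧ ∀ x, c * ‖x‖ ≤ N x ∧ N x ≤ C * ‖x‖) ∧
    ∀ (Y : Set H) (δ : ℝ), 0 < δ →
      (∀ y ∈ Y, ∀ y' ∈ Y, y ≠ y' → N (y - y') = δ) → Y.Countable := by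
  classical
  have hι : #(Ordinal.omega 1 : Ordinal.{0}).ToType = ℵ₁ := by simp
  have hc : ∀ i : (Ordinal.omega 1 : Ordinal.{0}).ToType, (Iic i).Countable := fun i => by
    rw [← Iio_insert]
    refine Set.Countable.insert _ ?_
    rw [← Cardinal.le_aleph0_iff_set_countable, ← Cardinal.lt_aleph_one_iff]
    simpa using mk_Iio_lt i (by simp)
  haveI : Uncountable (Ordinal.omega 1 : Ordinal.{0}).ToType := by
    rw [← Cardinal.aleph0_lt_mk_iff, hι]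
    exact Cardinal.aleph0_lt_aleph_one
  have hr : Nonempty ((Ordinal.omega 1 : Ordinal.{0}).ToType ↪ (ℕ → Bool)) := by
    rw [← Cardinal.le_def, hι]
    simpa using Cardinal.aleph_one_le_continuum
  obtain ⟨r⟩ := hr
  obtain ⟨N, h1, h2, h3, h4⟩ := Pool.Agent.H.MP_55235b.main hc r r.injective
    Pool.Agent.H.MP_55235b.orth Pool.Agent.H.MP_55235b.dens
  exact ⟨N, h1, h2, ⟨1 / 2, 2, by norm_num, by norm_num, h3⟩, h4⟩

end Pool.Agent.Results.MP_55235b_an.Main
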